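import Pool.Agent.V1169.Irr3

/-! # `MP_c9945a_an`, Q1: the quasi-proper maps `(ξ - ϑ) / (1 - conj ξ ϑ)` are irreducible

The surfaces of the question are, up to isomorphism, the surfaces `w ^ 2 = B z` over the unit disc,
where `B` is an infinite Blaschke product with simple zeros `β k`.
-/

set_option autoImplicit false

open Filter Topology Metric MeasureTheory Set Pool.Agent.TH222.QP Pool.Agent.V1169.Irr

namespace Pool.Agent.Results.MP_c9945a_an.Irreducible

/-- A quasi-proper map is irreducible if it is not a product of two quasi-proper maps. -/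
def IsIrreducible (β : ℕ → ℂ) (θ : Cover β → ℂ) : Prop :=
  QuasiProper β θ ∧ ¬ ∃ θ₁ θ₂ : Cover β → ℂ, QuasiProper β θ₁ ∧ QuasiProper β θ₂ ∧
    ∀ p, θ p = θ₁ p * θ₂ p

/-- The map `θ_ξ = (ξ - ϑ) / (1 - conj ξ ϑ)`. -/
noncomputable def theta (β : ℕ → ℂ) (ξ : ℂ) (p : Cover β) : ℂ :=
  (ξ - p.theta) / (1 - (starRingEnd ℂ) ξ * p.theta)

theorem not_product {β : ℕ → ℂ} (hinj : Function.Injective β) (h : BSeq β) {ξ : ℂ} (hξ0 : ξ ≠ 0)
    (hξ : ‖ξ‖ < 1)
    (hN : IsBlaschke fun z => (ξ ^ 2 - B β z) / (1 - (starRingEnd ℂ) ξ ^ 2 * B β z))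
    {θ₁ θ₂ : Cover β → ℂ} (h₁ : QuasiProper β θ₁) (h₂ : QuasiProper β θ₂)
    (hprod : ∀ p, thx β ξ p = θ₁ p * θ₂ p) : False := by
  obtain ⟨α, hα, hdom⟩ := exists_dominated hN
  have hΘhol : Hol β fun p => θ₂ p * (1 - (starRingEnd ℂ) ξ * p.theta) := by
    refine Hol.mul h₂.1 fun p => ⟨univ, fun x => 1 - (starRingEnd ℂ) ξ * x.2, isOpen_univ,
      mem_univ _, ?_, fun _ _ => rfl⟩
    exact (by fun_prop : Differentiable ℂ fun x : ℂ × ℂ => 1 - (starRingEnd ℂ) ξ * x.2).differentiableOn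
  obtain ⟨f, g, hf, hg, hfg⟩ := parts hinj h h₁.1
  obtain ⟨P, q, hP, hq, hPq⟩ := parts hinj h hΘhol
  -- the norm of `θ₁`
  have hsigphi : ∀ p : Cover β, (sig p).phi = p.phi := fun _ => rfl
  have hsigtheta : ∀ p : Cover β, (sig p).theta = -p.theta := fun _ => rfl
  set b : ℂ → ℂ := fun z => f z ^ 2 - g z ^ 2 * B β z with hb
  have hbd : DifferentiableOn ℂ b (ball 0 1) := (hf.pow 2).sub ((hg.pow 2).mul h.differentiableOn)
  have hbmul : ∀ p : Cover β, θ₁ p * θ₁ (sig p) = b p.phi := by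
    intro p
    rw [hfg p, hfg (sig p), hsigphi, hsigtheta, hb]
    simp only
    rw [← p.theta_sq]
    ring
  -- relations
  have hrel : ∀ p : Cover β, b p.phi * (P p.phi + q p.phi * p.theta) =
      (ξ - p.theta) * (f p.phi - g p.phi * p.theta) := by
    intro p
    have hd := den_ne hξ (p.norm_theta_lt h).le
    have h1 := hprod p
    unfold thx at h1
    rw [div_eq_iff hd] at h1
    rw [← hPq p, ← hbmul p]
    have h3 : θ₁ (sig p) = f p.phi - g p.phi * p.theta := by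
      rw [hfg (sig p), hsigphi, hsigtheta]
      ring
    rw [← h3]
    linear_combination (-θ₁ (sig p)) * h1
  have hrel' : ∀ p : Cover β, b p.phi * (P p.phi - q p.phi * p.theta) =
      (ξ + p.theta) * (f p.phi + g p.phi * p.theta) := by
    intro p
    have := hrel (sig p)
    rw [hsigphi, hsigtheta] at this
    linear_combination this
  have hbP : ∀ p : Cover β, b p.phi * P p.phi = ξ * f p.phi + g p.phi * B β p.phi := by
    intro p
    have h1 := hrel p
    have h2 := hrel' p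
    rw [← p.theta_sq]
    linear_combination (1 / 2 : ℂ) * h1 + (1 / 2 : ℂ) * h2
  have hbq : ∀ z, ‖z‖ < 1 → b z * q z + (f z + ξ * g z) = 0 := by
    refine eq_of_mul_theta (u := fun z => b z * q z + (f z + ξ * g z)) h
      ((hbd.mul hq).add (hf.add (hg.const_mul ξ))) fun p => ?_
    have h1 := hrel p
    have h2 := hrel' p
    linear_combination (1 / 2 : ℂ) * h1 - (1 / 2 : ℂ) * h2
  -- bounds
  have hγ : ∀ p : Cover β, ‖g p.phi * p.theta‖ ≤ 1 := by
    intro p
    have e : g p.phi * p.theta = (θ₁ p - θ₁ (sig p)) / 2 := by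
      rw [hfg p, hfg (sig p), hsigphi, hsigtheta]
      ring
    rw [e, norm_div, Complex.norm_ofNat]
    have h1 := norm_sub_le (θ₁ p) (θ₁ (sig p))
    have h2 := h₁.2.1 p
    have h3 := h₁.2.1 (sig p)
    linarith
  have hfb : ∀ p : Cover β, ‖f p.phi‖ ≤ 1 := by
    intro p
    have e : f p.phi = (θ₁ p + θ₁ (sig p)) / 2 := by
      rw [hfg p, hfg (sig p), hsigphi, hsigtheta]
      ring
    rw [e, norm_div, Complex.norm_ofNat]
    have h1 := norm_add_le (θ₁ p) (θ₁ (sig p))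
    have h2 := h₁.2.1 p
    have h3 := h₁.2.1 (sig p)
    linarith
  have hgb : ∀ z, ‖z‖ < 1 → ‖g z‖ ≤ 1 := by
    intro z hz
    have h1 : ∀ z, ‖z‖ < 1 → ‖g z ^ 2‖ ≤ 1 := by
      refine sup_B h (g := fun z => g z ^ 2) (hg.pow 2) fun z hz => ?_
      have h2 : ‖g z * wv β z‖ ≤ 1 := hγ ⟨z, wv β z, hz, wv_sq β z⟩
      have e : B β z * g z ^ 2 = (g z * wv β z) ^ 2 := by rw [mul_pow, wv_sq]; ring
      rw [e, norm_pow]
      exact pow_le_one₀ (norm_nonneg _) h2
    have h3 := h1 z hz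
    rw [norm_pow] at h3
    by_contra hlt
    push Not at hlt
    nlinarith
  have hqb : ∀ p : Cover β, ‖q p.phi‖ ≤ 2 := by
    have hq1 : Hol β fun p => q p.phi := Hol.of_phi hq
    have hF : Hol β fun p => θ₁ (sig p) * q p.phi := Hol.mul (Hol.comp_sig h₁.1) hq1
    have h1 : ∀ p : Cover β, ‖θ₁ p * (θ₁ (sig p) * q p.phi)‖ ≤ 2 := by
      intro p
      have h2 := hbq p.phi p.norm_phi_lt
      have e : θ₁ p * (θ₁ (sig p) * q p.phi) = -(f p.phi + ξ * g p.phi) := by
        rw [← mul_assoc, hbmul p]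
        linear_combination h2
      rw [e, norm_neg]
      refine (norm_add_le _ _).trans ?_
      rw [norm_mul]
      have h3 := hfb p
      have h4 := hgb p.phi p.norm_phi_lt
      have h5 : ‖ξ‖ * ‖g p.phi‖ ≤ 1 * 1 := mul_le_mul hξ.le h4 (norm_nonneg _) zero_le_one
      linarith
    have h2 := QuasiProper.le h₁ hF (by norm_num) h1
    have h3 : ∀ p : Cover β, ‖θ₁ p * q p.phi‖ ≤ 2 := by
      intro p
      have := h2 (sig p)
      rw [sig_sig, hsigphi] at this
      exact this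
    exact QuasiProper.le h₁ hq1 (by norm_num) h3
  have hPb : ∀ p : Cover β, ‖P p.phi‖ ≤ 2 := by
    intro p
    have e : P p.phi = (θ₂ p * (1 - (starRingEnd ℂ) ξ * p.theta)
        + θ₂ (sig p) * (1 - (starRingEnd ℂ) ξ * (sig p).theta)) / 2 := by
      rw [hPq p, hPq (sig p), hsigphi, hsigtheta]
      ring
    have hbd' : ∀ p : Cover β, ‖θ₂ p * (1 - (starRingEnd ℂ) ξ * p.theta)‖ ≤ 2 := by
      intro p
      rw [norm_mul]
      have h1 := (h₂.2.1 p).le
      have h2 : ‖1 - (starRingEnd ℂ) ξ * p.theta‖ ≤ 2 := by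
        refine (norm_sub_le _ _).trans ?_
        rw [norm_one, norm_mul, RCLike.norm_conj]
        have := mul_le_mul hξ.le (p.norm_theta_lt h).le (norm_nonneg _) zero_le_one
        linarith
      calc ‖θ₂ p‖ * ‖1 - (starRingEnd ℂ) ξ * p.theta‖ ≤ 1 * 2 :=
            mul_le_mul h1 h2 (norm_nonneg _) zero_le_one
        _ = 2 := by norm_num
    rw [e, norm_div, Complex.norm_ofNat]
    have h1 := norm_add_le (θ₂ p * (1 - (starRingEnd ℂ) ξ * p.theta))
      (θ₂ (sig p) * (1 - (starRingEnd ℂ) ξ * (sig p).theta))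
    have h2 := hbd' p
    have h3 := hbd' (sig p)
    linarith
  -- general estimate
  have hgen : ∀ (z : ℂ), ‖z‖ < 1 → ∀ U : ℂ, ‖U‖ ≤ 5 →
      ‖b z * wv β z * U‖ ≤ 2 * (1 - ‖b z‖ ^ 2) + (1 - ‖wv β z‖ ^ 2) →
      ‖U‖ ≤ 9 * ((1 - ‖B β z‖) + (1 - ‖B α z‖)) := by
    intro z hz U hU hbU
    have hp : ‖z‖ < 1 ∧ (wv β z) ^ 2 = B β z := ⟨hz, wv_sq β z⟩
    set p : Cover β := ⟨z, wv β z, hp.1, hp.2⟩ with hpdef
    have hbn : ‖b z‖ ≤ 1 := by
      have := hbmul p
      rw [← show b p.phi = b z from rfl, ← this, norm_mul]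
      exact mul_le_one₀ (h₁.2.1 p).le (norm_nonneg _) (h₁.2.1 (sig p)).le
    have hwn : ‖wv β z‖ ≤ 1 := (p.norm_theta_lt h).le
    have hw2 := norm_wv_sq β z
    -- the norm of `b` is at least that of the Blaschke product
    have hbα : ‖B α z‖ ≤ ‖b z‖ := by
      have h1 := hdom z hz
      have h2 := thx_mul_sig h hξ p
      have h3 : thx β ξ p * thx β ξ (sig p) = b z * (θ₂ p * θ₂ (sig p)) := by
        rw [hprod p, hprod (sig p), ← show b p.phi = b z from rfl, ← hbmul p]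
        ring
      have h4 : ‖(ξ ^ 2 - B β z) / (1 - (starRingEnd ℂ) ξ ^ 2 * B β z)‖ ≤ ‖b z‖ := by
        rw [show (ξ ^ 2 - B β z) / (1 - (starRingEnd ℂ) ξ ^ 2 * B β z) = _ from h2.symm, h3, norm_mul]
        refine mul_le_of_le_one_right (norm_nonneg _) ?_
        rw [norm_mul]
        exact mul_le_one₀ (h₂.2.1 p).le (norm_nonneg _) (h₂.2.1 (sig p)).le
      exact h1.trans h4
    have hb0 := norm_nonneg (b z)
    have hw0 := norm_nonneg (wv β z)
    have hU0 := norm_nonneg U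
    rw [norm_mul, norm_mul] at hbU
    have e1 : 1 - ‖b z‖ ^ 2 ≤ 2 * (1 - ‖b z‖) := by nlinarith
    have e2 : 1 - ‖wv β z‖ ≤ 1 - ‖B β z‖ := by
      rw [← hw2]
      nlinarith
    have e3 : 1 - ‖b z‖ * ‖wv β z‖ ≤ (1 - ‖b z‖) + (1 - ‖wv β z‖) := by nlinarith
    have e4 : ‖U‖ = ‖b z‖ * ‖wv β z‖ * ‖U‖ + (1 - ‖b z‖ * ‖wv β z‖) * ‖U‖ := by ring
    have e5 : 0 ≤ 1 - ‖b z‖ * ‖wv β z‖ := by nlinarith
    have e6 : (1 - ‖b z‖ * ‖wv β z‖) * ‖U‖ ≤ (1 - ‖b z‖ * ‖wv β z‖) * 5 :=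
      mul_le_mul_of_nonneg_left hU e5
    rw [e4]
    rw [hw2] at hbU
    nlinarith
  have hξ1 : ‖ξ‖ ≤ 1 := hξ.le
  -- first identity
  have id1 : ∀ z, ‖z‖ < 1 → -q z = (starRingEnd ℂ) (f z - (starRingEnd ℂ) ξ * (g z * B β z)) := by
    intro z hz
    refine center (u := fun z => -q z) (v := fun z => f z - (starRingEnd ℂ) ξ * (g z * B β z)) h hα
      hq.neg (hf.sub ((hg.mul h.differentiableOn).const_mul _)) (K := 9) (by norm_num)
      (fun z hz => ?_) hz
    have hp : ‖z‖ < 1 ∧ (wv β z) ^ 2 = B β z := ⟨hz, wv_sq β z⟩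
    set p : Cover β := ⟨z, wv β z, hp.1, hp.2⟩ with hpdef
    have hzp : p.phi = z := rfl
    have hwp : p.theta = wv β z := rfl
    set w := wv β z with hw
    have hwB : w ^ 2 = B β z := hp.2
    have hwn : ‖w‖ ≤ 1 := (p.norm_theta_lt h).le
    refine hgen z hz _ ?_ ?_
    · refine (norm_sub_le _ _).trans ?_
      rw [norm_neg, RCLike.norm_conj]
      have a1 := hqb p
      rw [hzp] at a1
      have a2 := norm_sub_le (f z) ((starRingEnd ℂ) ξ * (g z * B β z))
      have a3 := hfb p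
      rw [hzp] at a3
      have a4 : ‖(starRingEnd ℂ) ξ * (g z * B β z)‖ ≤ 1 := by
        rw [norm_mul, norm_mul, RCLike.norm_conj]
        exact mul_le_one₀ hξ1 (by positivity) (mul_le_one₀ (hgb z hz) (norm_nonneg _) (h.norm_B_le hz))
      linarith
    · set γ := g z * w with hγdef
      have hγn : ‖γ‖ ≤ 1 := hγ p
      have ev := est_even (h₁.2.1 p).le (h₁.2.1 (sig p)).le
      have od := est_odd (h₁.2.1 p).le (h₁.2.1 (sig p)).le
      have hfe : (θ₁ p + θ₁ (sig p)) / 2 = f z := by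
        rw [hfg p, hfg (sig p), hsigphi, hsigtheta]
        ring
      have hge : (θ₁ p - θ₁ (sig p)) / 2 = γ := by
        rw [hfg p, hfg (sig p), hsigphi, hsigtheta]
        simp only [hzp, hwp, hγdef]
        ring
      rw [hfe, hbmul p, hzp] at ev
      rw [hge, hbmul p, hzp] at od
      have hbn : ‖b z‖ ≤ 1 := by
        have := hbmul p
        rw [hzp] at this
        rw [← this, norm_mul]
        exact mul_le_one₀ (h₁.2.1 p).le (norm_nonneg _) (h₁.2.1 (sig p)).le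
      have hww := conj_mul' w
      have e : b z * w * (-q z - (starRingEnd ℂ) (f z - (starRingEnd ℂ) ξ * (g z * B β z)))
          = w * (f z - b z * (starRingEnd ℂ) (f z)) + ξ * (γ + b z * (starRingEnd ℂ) γ)
            - ξ * (b z * (starRingEnd ℂ) γ * ((1 - ‖w‖ ^ 2 : ℝ) : ℂ)) := by
        have h1 := hbq z hz
        simp only [map_sub, map_mul, Complex.conj_conj, ← hwB, map_pow, hγdef]
        push_cast at hww ⊢
        linear_combination (-w) * h1 +
          (b z * ξ * (starRingEnd ℂ) (g z) * (starRingEnd ℂ) w) * hww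
      rw [e]
      refine (norm_sub_le _ _).trans ?_
      have n1 : ‖w * (f z - b z * (starRingEnd ℂ) (f z)) + ξ * (γ + b z * (starRingEnd ℂ) γ)‖
          ≤ 2 * (1 - ‖b z‖ ^ 2) := by
        refine (norm_add_le _ _).trans ?_
        rw [norm_mul, norm_mul]
        have n0 : 0 ≤ 1 - ‖b z‖ ^ 2 := by nlinarith [norm_nonneg (b z)]
        have := mul_le_mul hwn ev (norm_nonneg _) zero_le_one
        have := mul_le_mul hξ1 od (norm_nonneg _) zero_le_one
        linarith
      have n2 : ‖ξ * (b z * (starRingEnd ℂ) γ * ((1 - ‖w‖ ^ 2 : ℝ) : ℂ))‖ ≤ 1 - ‖w‖ ^ 2 := by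
        have n0 : 0 ≤ 1 - ‖w‖ ^ 2 := by nlinarith [norm_nonneg w]
        rw [norm_mul, norm_mul, norm_mul, RCLike.norm_conj, Complex.norm_real, Real.norm_of_nonneg n0]
        have n3 : ‖b z‖ * ‖γ‖ ≤ 1 := mul_le_one₀ hbn (norm_nonneg _) hγn
        have n4 : ‖b z‖ * ‖γ‖ * (1 - ‖w‖ ^ 2) ≤ 1 - ‖w‖ ^ 2 := mul_le_of_le_one_left n0 n3
        exact (mul_le_of_le_one_left (by positivity) hξ1).trans n4
      linarith
  -- second identity
  have id2 : ∀ z, ‖z‖ < 1 → P z = (starRingEnd ℂ) ((starRingEnd ℂ) ξ * f z - g z) := by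
    intro z hz
    refine center (u := P) (v := fun z => (starRingEnd ℂ) ξ * f z - g z) h hα
      hP ((hf.const_mul _).sub hg) (K := 9) (by norm_num) (fun z hz => ?_) hz
    have hp : ‖z‖ < 1 ∧ (wv β z) ^ 2 = B β z := ⟨hz, wv_sq β z⟩
    set p : Cover β := ⟨z, wv β z, hp.1, hp.2⟩ with hpdef
    have hzp : p.phi = z := rfl
    have hwp : p.theta = wv β z := rfl
    set w := wv β z with hw
    have hwB : w ^ 2 = B β z := hp.2
    have hwn : ‖w‖ ≤ 1 := (p.norm_theta_lt h).le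
    refine hgen z hz _ ?_ ?_
    · refine (norm_sub_le _ _).trans ?_
      rw [RCLike.norm_conj]
      have a1 := hPb p
      rw [hzp] at a1
      have a2 := norm_sub_le ((starRingEnd ℂ) ξ * f z) (g z)
      have a3 := hfb p
      rw [hzp] at a3
      have a4 : ‖(starRingEnd ℂ) ξ * f z‖ ≤ 1 := by
        rw [norm_mul, RCLike.norm_conj]
        exact mul_le_one₀ hξ1 (norm_nonneg _) a3
      have a5 := hgb z hz
      linarith
    · set γ := g z * w with hγdef
      have hγn : ‖γ‖ ≤ 1 := hγ p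
      have ev := est_even (h₁.2.1 p).le (h₁.2.1 (sig p)).le
      have od := est_odd (h₁.2.1 p).le (h₁.2.1 (sig p)).le
      have hfe : (θ₁ p + θ₁ (sig p)) / 2 = f z := by
        rw [hfg p, hfg (sig p), hsigphi, hsigtheta]
        ring
      have hge : (θ₁ p - θ₁ (sig p)) / 2 = γ := by
        rw [hfg p, hfg (sig p), hsigphi, hsigtheta]
        simp only [hzp, hwp, hγdef]
        ring
      rw [hfe, hbmul p, hzp] at ev
      rw [hge, hbmul p, hzp] at od
      have hbn : ‖b z‖ ≤ 1 := by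
        have := hbmul p
        rw [hzp] at this
        rw [← this, norm_mul]
        exact mul_le_one₀ (h₁.2.1 p).le (norm_nonneg _) (h₁.2.1 (sig p)).le
      have hww := conj_mul' w
      have e : b z * (starRingEnd ℂ) w * (P z - (starRingEnd ℂ) ((starRingEnd ℂ) ξ * f z - g z))
          = ξ * ((starRingEnd ℂ) w * (f z - b z * (starRingEnd ℂ) (f z)))
            + (γ + b z * (starRingEnd ℂ) γ) - γ * ((1 - ‖w‖ ^ 2 : ℝ) : ℂ) := by
        have h1 := hbP p
        rw [hzp, ← hwB] at h1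
        simp only [map_sub, map_mul, Complex.conj_conj, hγdef]
        push_cast at hww ⊢
        linear_combination ((starRingEnd ℂ) w) * h1 + (g z * w) * hww
      have e' : ‖b z * w * (P z - (starRingEnd ℂ) ((starRingEnd ℂ) ξ * f z - g z))‖
          = ‖b z * (starRingEnd ℂ) w * (P z - (starRingEnd ℂ) ((starRingEnd ℂ) ξ * f z - g z))‖ := by
        rw [norm_mul, norm_mul, norm_mul, norm_mul, RCLike.norm_conj]
      rw [e', e]
      refine (norm_sub_le _ _).trans ?_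
      have n1 : ‖ξ * ((starRingEnd ℂ) w * (f z - b z * (starRingEnd ℂ) (f z)))
            + (γ + b z * (starRingEnd ℂ) γ)‖ ≤ 2 * (1 - ‖b z‖ ^ 2) := by
        refine (norm_add_le _ _).trans ?_
        rw [norm_mul, norm_mul, RCLike.norm_conj]
        have n0 : 0 ≤ 1 - ‖b z‖ ^ 2 := by nlinarith [norm_nonneg (b z)]
        have t1 := mul_le_mul hwn ev (norm_nonneg _) zero_le_one
        have t2 := mul_le_mul hξ1 t1 (by positivity) zero_le_one
        linarith
      have n2 : ‖γ * ((1 - ‖w‖ ^ 2 : ℝ) : ℂ)‖ ≤ 1 - ‖w‖ ^ 2 := by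
        have n0 : 0 ≤ 1 - ‖w‖ ^ 2 := by nlinarith [norm_nonneg w]
        rw [norm_mul, Complex.norm_real, Real.norm_of_nonneg n0]
        exact mul_le_of_le_one_left n0 hγn
      linarith
  -- evaluation at a branch point
  set z0 := β 0 with hz0
  have hz0n : ‖z0‖ < 1 := h.lt_one 0
  have hB0 : B β z0 = 0 := h.B_zero 0
  set p0 : Cover β := ⟨z0, 0, hz0n, by rw [hB0]; ring⟩ with hp0
  have hφ0 : p0.phi = z0 := rfl
  have hθ0 : p0.theta = 0 := rfl
  have hc : θ₁ p0 = f z0 := by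
    rw [hfg p0, hθ0, hφ0]
    ring
  have hcd : ξ = f z0 * θ₂ p0 := by
    have h1 := hprod p0
    unfold thx at h1
    rw [hθ0, hc] at h1
    simpa using h1
  have hb0 : b z0 = f z0 ^ 2 := by
    simp only [hb, hB0]
    ring
  refine final_algebra (c := f z0) (d := θ₂ p0) (g0 := g z0) (q0 := q z0) (P0 := P z0) hξ0 ?_
    (h₂.2.1 p0) hcd ?_ ?_ (id2 z0 hz0n) ?_
  · rw [← hc]
    exact h₁.2.1 p0
  · have := id1 z0 hz0n
    rw [hB0] at this
    simpa using this
  · have := hbq z0 hz0n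
    rw [hb0] at this
    linear_combination this
  · have := hbP p0
    rw [hφ0, hB0, hb0] at this
    linear_combination this

/-- **Affirmative answer to Q1**, for all surfaces `w ^ 2 = B z` with `B` an infinite Blaschke
product with simple zeros `β k`. -/
theorem result : ∀ β : ℕ → ℂ, Function.Injective β → BSeq β → ∀ ξ : ℂ, 0 < ‖ξ‖ → ‖ξ‖ < 1 →
    IsBlaschke (fun z => (ξ ^ 2 - B β z) / (1 - (starRingEnd ℂ) ξ ^ 2 * B β z)) →
    IsIrreducible β (theta β ξ) := by
  intro β hinj h ξ hξ0 hξ hN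
  have e : theta β ξ = thx β ξ := rfl
  rw [e]
  refine ⟨quasiProper_thx h hξ hN, ?_⟩
  rintro ⟨θ₁, θ₂, h₁, h₂, hprod⟩
  exact not_product hinj h (norm_pos_iff.1 hξ0) hξ hN h₁ h₂ hprod

end Pool.Agent.Results.MP_c9945a_an.Irreducible
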